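import Pool.Agent.Lib.MP_144d21_co.X4.Iface
import Pool.Agent.Lib.MP_144d21_co.XU.H34.Con2

/-! # MP_144d21_co, project X4, module MINOR -/

set_option autoImplicit false
set_option linter.unusedSectionVars false

namespace Pool.Agent.Xu.X4.H03

open Finset

variable {V : Type} [Fintype V] [DecidableEq V]

theorem sep_symm {G : SimpleGraph V} {S1 S2 : Finset V} (h : Sep G S1 S2) : Sep G S2 S1 :=
  fun a ha ha' b hb hb' hab => h b hb hb' a ha ha' hab.symm

/-- the rest of the part which contains the clique is connected -/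
theorem conn_part {G : SimpleGraph V} {S S1 S2 Q : Finset V} {u v : V}
    (hun : S1 ∪ S2 = S) (hint : S1 ∩ S2 = {u, v}) (hsep : Sep G S1 S2) (huQ : u ∉ Q)
    (huv : G.Adj u v) (hvQ : v ∉ Q) (hD : Conn G (S \ Q)) : Conn G (S1 \ Q) := by
  have hu1 : u ∈ S1 := (mem_inter.1 (by rw [hint]; simp : u ∈ S1 ∩ S2)).1
  have hv1 : v ∈ S1 := (mem_inter.1 (by rw [hint]; simp : v ∈ S1 ∩ S2)).1
  have hS1 : S1 ⊆ S := by rw [← hun]; exact subset_union_left
  -- neighbours of the inner part
  have key : ∀ B ⊆ S1 \ Q, B.Nonempty → u ∉ B → v ∉ B →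
      ∃ a ∈ B, ∃ b ∈ S1 \ Q, b ∉ B ∧ G.Adj a b := by
    intro B hB hne hu hv
    have hBD : B ⊆ S \ Q := hB.trans (sdiff_subset_sdiff hS1 (Subset.refl _))
    have huD : u ∈ S \ Q := mem_sdiff.2 ⟨hS1 hu1, huQ⟩
    obtain ⟨a, ha, b, hb, hbB, hab⟩ := hD.2 B hBD hne fun h => hu (by rw [h]; exact huD)
    refine ⟨a, ha, b, ?_, hbB, hab⟩
    rw [mem_sdiff] at hb
    refine mem_sdiff.2 ⟨?_, hb.2⟩
    by_contra hb1
    have hb2 : b ∈ S2 := by
      have := hb.1
      rw [← hun, mem_union] at this
      exact this.resolve_left hb1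
    have ha1 : a ∈ S1 := (mem_sdiff.1 (hB ha)).1
    have ha2 : a ∉ S2 := by
      intro h
      have h' : a ∈ S1 ∩ S2 := mem_inter.2 ⟨ha1, h⟩
      rw [hint, mem_insert, mem_singleton] at h'
      rcases h' with rfl | rfl
      · exact hu ha
      · exact hv ha
    exact hsep a ha1 ha2 b hb2 hb1 hab
  refine ⟨⟨u, mem_sdiff.2 ⟨hu1, huQ⟩⟩, fun A hA hne hAT => ?_⟩
  by_contra hcon
  push Not at hcon
  have huD1 : u ∈ S1 \ Q := mem_sdiff.2 ⟨hu1, huQ⟩
  have hvD1 : v ∈ S1 \ Q := mem_sdiff.2 ⟨hv1, hvQ⟩
  by_cases hu : u ∈ A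
  · have hv : v ∈ A := by
      by_contra hv
      exact hcon u hu v hvD1 hv huv
    obtain ⟨a, ha, b, hb, hbB, hab⟩ := key ((S1 \ Q) \ A) sdiff_subset
      (by
        rw [sdiff_nonempty]
        intro h
        exact hAT (Subset.antisymm hA h))
      (fun h => (mem_sdiff.1 h).2 hu) (fun h => (mem_sdiff.1 h).2 hv)
    have hbA : b ∈ A := by
      by_contra h
      exact hbB (mem_sdiff.2 ⟨hb, h⟩)
    exact hcon b hbA a (mem_sdiff.1 ha).1 (mem_sdiff.1 ha).2 hab.symm
  · have hv : v ∉ A := fun hv => hcon v hv u huD1 hu huv.symm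
    obtain ⟨a, ha, b, hb, hbB, hab⟩ := key A hA hne hu hv
    exact hcon a ha b hb hbB hab

theorem minor (h1 : ConxS) (h2 : BconS) (h3 : CuteS) (h4 : ClqS) : MinorS := by
  intro V _ _
  have main : ∀ n : ℕ, ∀ (G : SimpleGraph V) (S Q : Finset V), S.card = n → TwoConn G S →
      Q ⊆ S → Clq G Q → 2 ≤ Q.card → Conn G (S \ Q) →
      (∀ q ∈ Q, ∃ d ∈ S \ Q, G.Adj q d) → ((Q.card - 1).factorial : ℤ) ≤ bet G S := by
    intro n
    induction n using Nat.strong_induction_on with
    | _ n ih =>
    intro G S Q hn hS hQS hQ hQ2 hD hsee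
    have hcard : (S \ Q).card + Q.card = S.card := card_sdiff_add_card_eq_card hQS
    have hDpos : 0 < (S \ Q).card := card_pos.2 hD.1
    by_cases hone : (S \ Q).card = 1
    · obtain ⟨d, hd⟩ := card_eq_one.1 hone
      have hclq : Clq G S := by
        have hout : ∀ x ∈ S, x ∉ Q → x = d := by
          intro x hx hxQ
          have : x ∈ S \ Q := mem_sdiff.2 ⟨hx, hxQ⟩
          rw [hd, mem_singleton] at this
          exact this
        have hadj : ∀ q ∈ Q, G.Adj q d := by
          intro q hq
          obtain ⟨e, he, hqe⟩ := hsee q hq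
          rw [hd, mem_singleton] at he
          rw [← he]; exact hqe
        intro x hx y hy hxy
        by_cases hxQ : x ∈ Q
        · by_cases hyQ : y ∈ Q
          · exact hQ x hxQ y hyQ hxy
          · rw [hout y hy hyQ]; exact hadj x hxQ
        · by_cases hyQ : y ∈ Q
          · rw [hout x hx hxQ]; exact (hadj y hyQ).symm
          · exact absurd ((hout x hx hxQ).trans (hout y hy hyQ).symm) hxy
      have h5 := (h4 V G S hclq).1 (by omega)
      rw [h5]
      have : Q.card - 1 = S.card - 2 := by omega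
      rw [this]
    · -- an edge in the rest
      obtain ⟨u, hu⟩ := hD.1
      obtain ⟨u', hu', v, hv, hvu, huv⟩ := hD.2 {u} (singleton_subset_iff.2 hu)
        (singleton_nonempty u) (fun h => hone (by rw [← h, card_singleton]))
      rw [mem_singleton] at hu' hvu
      subst hu'
      rw [mem_sdiff] at hu hv
      have hS3 : 3 ≤ S.card := by omega
      rcases h1 V G S u' v hS hS3 hu.1 hv.1 huv with hcon | ⟨S1, S2, hun, hint, hsep, hne1, hne2⟩
      · -- contraction
        have hb := (h2 V G S u' v hS hS3 hu.1 hv.1 huv).2.2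
        refine le_trans ?_ hb
        have hcard' : (S.erase u').card = S.card - 1 := card_erase_of_mem hu.1
        have hco : (S.erase u') \ Q = (S \ Q).erase u' := erase_sdiff_comm S Q u'
        refine ih (S.erase u').card (by omega) (con G u' v) (S.erase u') Q rfl hcon ?_ ?_ hQ2 ?_ ?_
        · intro x hx
          exact mem_erase.2 ⟨fun h => hu.2 (by rw [← h]; exact hx), hQS hx⟩
        · intro x hx y hy hxy
          exact ⟨hxy, Or.inl (hQ x hx y hy hxy)⟩
        · rw [hco]
          exact H34.con_conn (mem_sdiff.2 hu) (mem_sdiff.2 hv) huv.ne hD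
        · intro q hq
          obtain ⟨d, hd, hqd⟩ := hsee q hq
          rw [hco]
          by_cases hdu : d = u'
          · refine ⟨v, mem_erase.2 ⟨huv.ne.symm, mem_sdiff.2 hv⟩, ?_⟩
            refine ⟨fun h => hv.2 (by rw [← h]; exact hq), Or.inr (Or.inr ⟨rfl, ?_⟩)⟩
            rw [← hdu]; exact hqd.symm
          · exact ⟨d, mem_erase.2 ⟨hdu, hd⟩, hqd.ne, Or.inl hqd⟩
      · -- a cut at the edge
        have part : ∀ S1 S2 : Finset V, S1 ∪ S2 = S → S1 ∩ S2 = {u', v} → Sep G S1 S2 →
            S1 ≠ S → S2 ≠ S → Q ⊆ S1 → ((Q.card - 1).factorial : ℤ) ≤ bet G S := by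
          intro S1 S2 hun hint hsep hne1 hne2 hQ1
          obtain ⟨c1, -, c3, -, c5, -⟩ := h3 V G S S1 S2 u' v hS huv hun hint hsep hne1 hne2
          refine le_trans ?_ c5
          refine ih S1.card (by omega) G S1 Q rfl c1 hQ1 hQ hQ2
            (conn_part hun hint hsep hu.2 huv hv.2 hD) ?_
          intro q hq
          obtain ⟨d, hd, hqd⟩ := hsee q hq
          rw [mem_sdiff] at hd
          refine ⟨d, mem_sdiff.2 ⟨?_, hd.2⟩, hqd⟩
          by_contra hd1
          have hd2 : d ∈ S2 := by
            have := hd.1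
            rw [← hun, mem_union] at this
            exact this.resolve_left hd1
          have hq2 : q ∉ S2 := by
            intro h
            have h' : q ∈ S1 ∩ S2 := mem_inter.2 ⟨hQ1 hq, h⟩
            rw [hint, mem_insert, mem_singleton] at h'
            rcases h' with rfl | rfl
            · exact hu.2 hq
            · exact hv.2 hq
          exact hsep q (hQ1 hq) hq2 d hd2 hd1 hqd
        by_cases hQ1 : Q ⊆ S1
        · exact part S1 S2 hun hint hsep hne1 hne2 hQ1
        · obtain ⟨q1, hq1, hq1'⟩ := not_subset.1 hQ1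
          have hQ2' : Q ⊆ S2 := by
            intro q hq
            by_contra hq2
            have hqS : q ∈ S1 := by
              have := hQS hq
              rw [← hun, mem_union] at this
              exact this.resolve_right hq2
            have hq1S : q1 ∈ S2 := by
              have := hQS hq1
              rw [← hun, mem_union] at this
              exact this.resolve_left hq1'
            exact hsep q hqS hq2 q1 hq1S hq1'
              (hQ q hq q1 hq1 fun h => hq1' (by rw [← h]; exact hqS))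
          exact part S2 S1 (by rw [union_comm]; exact hun) (by rw [inter_comm]; exact hint)
            (sep_symm hsep) hne2 hne1 hQ2'
  intro G S Q hS hQS hQ hQ2 hD hsee
  exact main S.card G S Q rfl hS hQS hQ hQ2 hD hsee

end Pool.Agent.Xu.X4.H03
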